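import Mathlib

/-!
# Hosts of a random labelling: definitions

Text: `/team-store/PAPER_C4_BASE.md`.  `D : Dat V M` are the data of one host: forced arcs `R`,
optional arcs `O` (regular of degree `s`), weight `β`, increments `I` with two distinguished
elements `i1`, `i2`, label free corrections `fp`, `fm`.  `h : V → ZMod M` is the labelling.  The
host consists of the arcs `(x, y)` with `h y - h x ∈ I`.  All objects are defined for tails; the
objects for heads are those of the reversed data `D.rev` with the labelling `-h`.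
-/

set_option autoImplicit false

open scoped BigOperators Classical

noncomputable section

namespace Pool.Agent.C4B

/-- The data of a host. -/
structure Dat (V : Type) (M : ℕ) where
  R : Set (V × V)
  O : Set (V × V)
  s : ℕ
  β : ℝ
  I : Finset (ZMod M)
  i1 : ZMod M
  i2 : ZMod M
  fp : V → ℝ
  fm : V → ℝ

variable {V : Type} [Fintype V] {M : ℕ}

/-- reversal -/
def Dat.rev (D : Dat V M) : Dat V M :=
  { D with R := Prod.swap ⁻¹' D.R, O := Prod.swap ⁻¹' D.O, fp := D.fm, fm := D.fp }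

/-- out-neighbours -/
def outN (A : Set (V × V)) (x : V) : Finset V := Finset.univ.filter fun y => (x, y) ∈ A

/-- all arcs -/
def Dat.E (D : Dat V M) : Set (V × V) := D.R ∪ D.O

/-- all neighbours -/
def nbr (A : Set (V × V)) (x : V) : Finset V :=
  Finset.univ.filter fun y => (x, y) ∈ A ∨ (y, x) ∈ A

/-- the normalisation `|I| s` -/
def Dat.Z (D : Dat V M) : ℝ := D.I.card * D.s

/-- `i2 - i1` -/
def Dat.rho (D : Dat V M) : ZMod M := D.i2 - D.i1

/-- weight of an arc in the first order -/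
def Dat.gam (D : Dat V M) (x y : V) : ℝ := if (x, y) ∈ D.O then D.β else 1

/-- `ζ_v(l)` -/
def zt (h : V → ZMod M) (v : V) (l : ZMod M) : ℝ := (if h v = l then (M : ℝ) else 0) - 1

/-- `S_v(a)`: the vertex `v` seen as a head from a tail with label `a` -/
def Dat.Sf (D : Dat V M) (h : V → ZMod M) (v : V) (a : ZMod M) : ℝ := ∑ i ∈ D.I, zt h v (a + i)

/-- `S'_v(b)`: the vertex `v` seen as a tail from a head with label `b` -/
def Dat.Sb (D : Dat V M) (h : V → ZMod M) (v : V) (b : ZMod M) : ℝ := ∑ i ∈ D.I, zt h v (b - i)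

/-- `η⁺` -/
def Dat.eta (D : Dat V M) (h : V → ZMod M) (x : V) (a : ZMod M) : ℝ :=
  D.Z⁻¹ * ∑ y ∈ outN D.E x, D.gam x y * D.Sf h y a

/-- `ν⁺` -/
def Dat.nu (D : Dat V M) (h : V → ZMod M) (x : V) (a : ZMod M) : ℝ :=
  D.Z⁻¹ * ∑ y ∈ outN D.O x, D.Sf h y a

/-- `ν⁺_i` -/
def Dat.nui (D : Dat V M) (h : V → ZMod M) (i : ZMod M) (x : V) (a : ZMod M) : ℝ :=
  (D.s : ℝ)⁻¹ * ∑ y ∈ outN D.O x, zt h y (a + i)

/-- cavity `η⁺` at `x`, without the vertex `y` -/
def Dat.etc (D : Dat V M) (h : V → ZMod M) (x y : V) (a : ZMod M) : ℝ :=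
  D.eta h x a - D.β / D.Z * D.Sf h y a

/-- `g⁺` -/
def Dat.g (D : Dat V M) (h : V → ZMod M) (x : V) (a : ZMod M) : ℝ :=
  D.Z⁻¹ * ∑ y ∈ outN D.O x, ∑ i ∈ D.I, D.rev.etc (-h) y x (-(a + i))

/-- `θ⁺` -/
def Dat.th (D : Dat V M) (h : V → ZMod M) (x : V) (a : ZMod M) : ℝ :=
  D.I.card * ∑ j ∈ Finset.range ((a * D.rho⁻¹).val + 1), D.g h x (j * D.rho)

/-- `κ⁺_i` -/
def Dat.kap (D : Dat V M) (h : V → ZMod M) (i : ZMod M) (x : V) (a : ZMod M) : ℝ :=
  if i = D.i2 then D.th h x a else if i = D.i1 then - D.th h x (a - D.rho) else 0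

/-- the first order correction of the arc `(x, y)` if `x` has label `a` and `y` has label `a + i` -/
def Dat.u (D : Dat V M) (h : V → ZMod M) (x y : V) (a i : ZMod M) : ℝ :=
  - D.etc h x y a - D.rev.etc (-h) y x (-(a + i)) + D.kap h i x a +
    D.rev.kap (-h) i y (-(a + i)) - D.fp x / D.s - D.fm y / D.s

/-- `n⁺` -/
def Dat.np (D : Dat V M) (h : V → ZMod M) (x : V) : ℝ :=
  D.Z⁻¹ * ∑ y ∈ outN D.O x, ∑ i ∈ D.I, zt h y (h x + i) * D.u h x y (h x) i

/-- `n⁻` -/
def Dat.nm (D : Dat V M) (h : V → ZMod M) (y : V) : ℝ := D.rev.np (-h) y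

/-- the weight of a host arc -/
def Dat.w (D : Dat V M) (h : V → ZMod M) (x y : V) : ℝ :=
  D.β + D.u h x y (h x) (h y - h x) - D.np h x - D.nm h y

/-- `A⁺`: the average of `n⁻` over the host out-neighbours -/
def Dat.A (D : Dat V M) (h : V → ZMod M) (x : V) : ℝ :=
  M / D.Z * ∑ y ∈ outN D.O x, if h y - h x ∈ D.I then D.nm h y else 0

/-- average over the optional out-neighbours -/
def Dat.P (D : Dat V M) (f : V → ℝ) (x : V) : ℝ := (D.s : ℝ)⁻¹ * ∑ y ∈ outN D.O x, f y

/-- the error -/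
def Dat.err (D : Dat V M) (h : V → ZMod M) (x : V) : ℝ :=
  D.β / D.s * D.nu h x (h x) - D.np h x * D.nu h x (h x) - (D.s : ℝ)⁻¹ * D.P D.fm x - D.A h x

/-- the sum of the weights of the host arcs with tail `x` -/
def Dat.T (D : Dat V M) (h : V → ZMod M) (x : V) : ℝ :=
  ((outN D.R x).filter fun y => h y - h x ∈ D.I).card +
    ∑ y ∈ outN D.O x, if h y - h x ∈ D.I then D.w h x y else 0

end Pool.Agent.C4B
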