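import Mathlib

/-!
# Freedman's inequality, counting form

`W → α` with the uniform measure, an injective rank on `W`, functions `D v` which depend only on the
coordinates of rank at most that of `v` and have mean zero in the coordinate `v`.
-/

set_option autoImplicit false

open scoped BigOperators

namespace Pool.Agent.C4B

section fre

variable {W α : Type*} [Fintype W] [DecidableEq W] [Fintype α] [Nonempty α]

/-- resampling one coordinate -/
theorem sum_update (v : W) (F : (W → α) → ℝ) :
    ∑ ω, F ω = ∑ ω, (∑ l, F (Function.update ω v l)) / Fintype.card α := by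
  classical
  have hN0 : (0 : ℝ) < Fintype.card α := by exact_mod_cast Fintype.card_pos
  have h1 : ∑ ω : W → α, ∑ l, F (Function.update ω v l) = Fintype.card α * ∑ ω, F ω := by
    have h2 : ∑ p : (W → α) × α, F (Function.update p.1 v p.2) = ∑ p : (W → α) × α, F p.1 := by
      refine Finset.sum_nbij' (fun p => (Function.update p.1 v p.2, p.1 v))
        (fun p => (Function.update p.1 v p.2, p.1 v)) ?_ ?_ ?_ ?_ ?_
      · intro _ _; exact Finset.mem_univ _
      · intro _ _; exact Finset.mem_univ _
      · rintro ⟨ω, l⟩ _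
        simp
      · rintro ⟨ω, l⟩ _
        simp
      · rintro ⟨ω, l⟩ _
        rfl
    rw [Fintype.sum_prod_type, Fintype.sum_prod_type] at h2
    rw [h2]
    simp only [Finset.sum_const, Finset.card_univ, nsmul_eq_mul]
    rw [← Finset.mul_sum]
  rw [← Finset.sum_div, h1]
  field_simp

/-- the exponential inequality -/
theorem exp_le_quad (x : ℝ) (hx : |x| ≤ 1) : Real.exp x ≤ 1 + x + x ^ 2 := by
  have h := Real.abs_exp_sub_one_sub_id_le hx
  have := (abs_le.1 h).2
  linarith

/-- one coordinate -/
theorem one_coord (g : α → ℝ) (hg : ∑ l, g l = 0) (b y : ℝ) (hb : ∀ l, |g l| ≤ b)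
    (hy : |y| * b ≤ 1) :
    (∑ l, Real.exp (y * g l)) / Fintype.card α ≤
      Real.exp (y ^ 2 * ((∑ l, g l ^ 2) / Fintype.card α)) := by
  have hN0 : (0 : ℝ) < Fintype.card α := by exact_mod_cast Fintype.card_pos
  have h1 : ∑ l, Real.exp (y * g l) ≤ ∑ l, (1 + y * g l + (y * g l) ^ 2) := by
    refine Finset.sum_le_sum fun l _ => exp_le_quad _ ?_
    rw [abs_mul]
    exact (mul_le_mul_of_nonneg_left (hb l) (abs_nonneg y)).trans hy
  have h2 : ∑ l, (1 + y * g l + (y * g l) ^ 2) = Fintype.card α + y ^ 2 * ∑ l, g l ^ 2 := by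
    rw [Finset.sum_add_distrib, Finset.sum_add_distrib, ← Finset.mul_sum, hg, mul_zero, add_zero]
    simp only [Finset.sum_const, Finset.card_univ, nsmul_eq_mul, mul_one, mul_pow]
    rw [Finset.mul_sum]
  rw [h2] at h1
  have h3 : (∑ l, Real.exp (y * g l)) / Fintype.card α ≤
      y ^ 2 * ((∑ l, g l ^ 2) / Fintype.card α) + 1 := by
    rw [div_le_iff₀ hN0]
    have e : (y ^ 2 * ((∑ l, g l ^ 2) / (Fintype.card α : ℝ)) + 1) * Fintype.card α =
        Fintype.card α + y ^ 2 * ∑ l, g l ^ 2 := by
      field_simp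
      ring
    rw [e]
    exact h1
  exact h3.trans (Real.add_one_le_exp _)

variable (rk : W → ℕ) (hrk : Function.Injective rk) (D : W → (W → α) → ℝ)
  (hD : ∀ v ω ω', (∀ u, rk u ≤ rk v → ω u = ω' u) → D v ω = D v ω')
  (h0 : ∀ v ω, ∑ l, D v (Function.update ω v l) = 0)

include hrk hD h0 in
/-- the exponential supermartingale -/
theorem super (b y : ℝ) (hy : |y| * b ≤ 1)
    (hb : ∀ v ω l, |D v (Function.update ω v l)| ≤ b) (S : Finset W) :
    ∑ ω, Real.exp (∑ v ∈ S, (y * D v ω -
      y ^ 2 * ((∑ l, D v (Function.update ω v l) ^ 2) / Fintype.card α))) ≤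
      Fintype.card (W → α) := by
  classical
  have hN0 : (0 : ℝ) < Fintype.card α := by exact_mod_cast Fintype.card_pos
  induction S using Finset.induction_on_max_value rk with
  | empty => simp
  | insert v S hv hmax ih =>
    refine le_trans ?_ ih
    rw [sum_update v]
    refine Finset.sum_le_sum fun ω _ => ?_
    have key : ∀ l, ∑ u ∈ S, (y * D u (Function.update ω v l) -
        y ^ 2 * ((∑ l', D u (Function.update (Function.update ω v l) u l') ^ 2) /
          Fintype.card α)) =
        ∑ u ∈ S, (y * D u ω - y ^ 2 * ((∑ l', D u (Function.update ω u l') ^ 2) /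
          Fintype.card α)) := by
      intro l
      refine Finset.sum_congr rfl fun u hu => ?_
      have hlt : rk u < rk v := by
        refine lt_of_le_of_ne (hmax u hu) fun h => ?_
        exact hv (by rw [← hrk h]; exact hu)
      have hne : ∀ z, rk z ≤ rk u → z ≠ v := by
        rintro z hz rfl
        exact absurd hlt (not_lt.2 hz)
      have e1 : D u (Function.update ω v l) = D u ω := by
        refine hD u _ _ fun z hz => ?_
        rw [Function.update_of_ne (hne z hz)]
      have e2 : ∀ l', D u (Function.update (Function.update ω v l) u l') =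
          D u (Function.update ω u l') := by
        intro l'
        refine hD u _ _ fun z hz => ?_
        by_cases hzu : z = u
        · subst hzu
          simp
        · rw [Function.update_of_ne hzu, Function.update_of_ne hzu,
            Function.update_of_ne (hne z hz)]
      rw [e1]
      simp only [e2]
    have key2 : ∀ l, ∑ l', D v (Function.update (Function.update ω v l) v l') ^ 2 =
        ∑ l', D v (Function.update ω v l') ^ 2 := by
      intro l
      refine Finset.sum_congr rfl fun l' _ => ?_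
      rw [Function.update_idem]
    have h1 : ∀ l, Real.exp (∑ u ∈ insert v S, (y * D u (Function.update ω v l) -
        y ^ 2 * ((∑ l', D u (Function.update (Function.update ω v l) u l') ^ 2) /
          Fintype.card α))) =
        Real.exp (y * D v (Function.update ω v l)) *
        (Real.exp (-(y ^ 2 * ((∑ l', D v (Function.update ω v l') ^ 2) / Fintype.card α))) *
        Real.exp (∑ u ∈ S, (y * D u ω - y ^ 2 * ((∑ l', D u (Function.update ω u l') ^ 2) /
          Fintype.card α)))) := by
      intro l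
      rw [Finset.sum_insert hv, key l, key2 l, ← Real.exp_add, ← Real.exp_add]
      congr 1
      ring
    simp only [h1]
    rw [← Finset.sum_mul, mul_div_right_comm]
    have h2 := one_coord (fun l => D v (Function.update ω v l)) (h0 v ω) b y (hb v ω) hy
    have h3 : (∑ l, Real.exp (y * D v (Function.update ω v l))) / Fintype.card α *
        Real.exp (-(y ^ 2 * ((∑ l', D v (Function.update ω v l') ^ 2) / Fintype.card α))) ≤ 1 := by
      rw [Real.exp_neg]
      rw [← div_eq_mul_inv, div_le_one (Real.exp_pos _)]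
      exact h2
    rw [← mul_assoc]
    calc _ ≤ 1 * Real.exp (∑ u ∈ S, (y * D u ω -
          y ^ 2 * ((∑ l', D u (Function.update ω u l') ^ 2) / Fintype.card α))) :=
          mul_le_mul_of_nonneg_right h3 (Real.exp_pos _).le
      _ = _ := one_mul _

end fre

section fre2

variable {W α : Type*} [Fintype W] [DecidableEq W] [Fintype α] [Nonempty α]

/-- one side, everywhere bounded -/
theorem fre_one (rk : W → ℕ) (hrk : Function.Injective rk) (D : W → (W → α) → ℝ)
    (hD : ∀ v ω ω', (∀ u, rk u ≤ rk v → ω u = ω' u) → D v ω = D v ω')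
    (h0 : ∀ v ω, ∑ l, D v (Function.update ω v l) = 0)
    (P : (W → α) → Prop) [DecidablePred P] (b σ K ε : ℝ) (hb : 0 < b) (hσ : 0 ≤ σ) (hK : 0 < K)
    (hε : ε = 1 ∨ ε = -1)
    (h1 : ∀ ω v l, |D v (Function.update ω v l)| ≤ b)
    (h2 : ∀ ω, P ω → ∑ v, (∑ l, D v (Function.update ω v l) ^ 2) / Fintype.card α ≤ σ ^ 2)
    (h3 : ∀ ω, P ω → 2 * Real.sqrt K * σ + 2 * K * b ≤ ε * ∑ v, D v ω) :
    ((Finset.univ.filter P).card : ℝ) ≤ Real.exp (-K) * Fintype.card (W → α) := by
  classical
  have hsK : 0 < Real.sqrt K := Real.sqrt_pos.2 hK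
  have hsK2 : Real.sqrt K ^ 2 = K := Real.sq_sqrt hK.le
  have hε2 : ε ^ 2 = 1 := by rcases hε with h | h <;> rw [h] <;> norm_num
  have hεa : |ε| = 1 := by rcases hε with h | h <;> rw [h] <;> norm_num
  -- the choice of the parameter
  obtain ⟨y, hy0, hyb, hyK⟩ : ∃ y : ℝ, 0 ≤ y ∧ y * b ≤ 1 ∧
      K ≤ y * (2 * Real.sqrt K * σ + 2 * K * b) - y ^ 2 * σ ^ 2 := by
    by_cases hc : σ ≤ Real.sqrt K * b
    · refine ⟨b⁻¹, (inv_pos.2 hb).le, by rw [inv_mul_cancel₀ hb.ne'], ?_⟩
      have h4 : σ / b ≤ Real.sqrt K := by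
        rw [div_le_iff₀ hb]
        exact hc
      have h5 : 0 ≤ σ / b := div_nonneg hσ hb.le
      have e : b⁻¹ * (2 * Real.sqrt K * σ + 2 * K * b) - b⁻¹ ^ 2 * σ ^ 2 =
          2 * Real.sqrt K * (σ / b) + 2 * K - (σ / b) ^ 2 := by
        field_simp
      rw [e]
      nlinarith
    · have hc' : Real.sqrt K * b < σ := not_le.1 hc
      have hσ0 : 0 < σ := lt_of_le_of_lt (by positivity) hc'
      refine ⟨Real.sqrt K / σ, by positivity, ?_, ?_⟩
      · rw [div_mul_eq_mul_div, div_le_one hσ0]
        exact hc'.le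
      · have e : Real.sqrt K / σ * (2 * Real.sqrt K * σ + 2 * K * b) -
            (Real.sqrt K / σ) ^ 2 * σ ^ 2 =
            Real.sqrt K ^ 2 + 2 * K * b * (Real.sqrt K / σ) := by
          field_simp
          ring
        rw [e, hsK2]
        have : 0 ≤ 2 * K * b * (Real.sqrt K / σ) := by positivity
        linarith
  have h4 := super rk hrk D hD h0 b (y * ε) (by
    rw [abs_mul, hεa, mul_one, abs_of_nonneg hy0]
    exact hyb) (fun v ω l => h1 ω v l) Finset.univ
  have h5 : ((Finset.univ.filter P).card : ℝ) * Real.exp K ≤ Fintype.card (W → α) := by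
    refine le_trans ?_ h4
    calc ((Finset.univ.filter P).card : ℝ) * Real.exp K
        = ∑ _ω ∈ Finset.univ.filter P, Real.exp K := by
          rw [Finset.sum_const, nsmul_eq_mul]
      _ ≤ ∑ ω ∈ Finset.univ.filter P, Real.exp (∑ v, (y * ε * D v ω -
          (y * ε) ^ 2 * ((∑ l, D v (Function.update ω v l) ^ 2) / Fintype.card α))) := by
          refine Finset.sum_le_sum fun ω hω => Real.exp_le_exp.2 ?_
          have hP := (Finset.mem_filter.1 hω).2
          rw [Finset.sum_sub_distrib, ← Finset.mul_sum, ← Finset.mul_sum, mul_pow, hε2, mul_one]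
          have h6 := h2 ω hP
          have h7 := h3 ω hP
          have h8 := mul_le_mul_of_nonneg_left h6 (sq_nonneg y)
          have h9 := mul_le_mul_of_nonneg_left h7 hy0
          have e : y * ε * ∑ v, D v ω = y * (ε * ∑ v, D v ω) := by ring
          rw [e]
          linarith
      _ ≤ ∑ ω, Real.exp (∑ v, (y * ε * D v ω -
          (y * ε) ^ 2 * ((∑ l, D v (Function.update ω v l) ^ 2) / Fintype.card α))) :=
          Finset.sum_le_sum_of_subset_of_nonneg (Finset.filter_subset _ _)
            fun ω _ _ => (Real.exp_pos _).le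
  rw [Real.exp_neg, mul_comm, ← div_eq_mul_inv, le_div_iff₀ (Real.exp_pos K)]
  exact h5

/-- **FRE**: Freedman's inequality. -/
theorem fre (rk : W → ℕ) (hrk : Function.Injective rk) (D : W → (W → α) → ℝ)
    (hD : ∀ v ω ω', (∀ u, rk u ≤ rk v → ω u = ω' u) → D v ω = D v ω')
    (h0 : ∀ v ω, ∑ l, D v (Function.update ω v l) = 0)
    (P : (W → α) → Prop) [DecidablePred P] (b σ K : ℝ) (hb : 0 < b) (hσ : 0 ≤ σ) (hK : 0 < K)
    (h1 : ∀ ω, P ω → ∀ v l, |D v (Function.update ω v l)| ≤ b)
    (h2 : ∀ ω, P ω → ∑ v, (∑ l, D v (Function.update ω v l) ^ 2) / Fintype.card α ≤ σ ^ 2)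
    (h3 : ∀ ω, P ω → 2 * Real.sqrt K * σ + 2 * K * b ≤ |∑ v, D v ω|) :
    ((Finset.univ.filter P).card : ℝ) ≤ 2 * Real.exp (-K) * Fintype.card (W → α) := by
  classical
  have hN0 : (0 : ℝ) < Fintype.card α := by exact_mod_cast Fintype.card_pos
  -- truncation
  set D' : W → (W → α) → ℝ := fun v ω =>
    if ∀ l, |D v (Function.update ω v l)| ≤ b then D v ω else 0 with hD'
  have hgood : ∀ v (ω : W → α) (l : α), (∀ l', |D v (Function.update (Function.update ω v l) v l')| ≤ b) ↔
      ∀ l', |D v (Function.update ω v l')| ≤ b := by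
    intro v ω l
    simp only [Function.update_idem]
  have hDD' : ∀ v ω ω', (∀ u, rk u ≤ rk v → ω u = ω' u) → D' v ω = D' v ω' := by
    intro v ω ω' h
    have e : ∀ l, D v (Function.update ω v l) = D v (Function.update ω' v l) := by
      intro l
      refine hD v _ _ fun u hu => ?_
      by_cases huv : u = v
      · subst huv
        simp
      · rw [Function.update_of_ne huv, Function.update_of_ne huv]
        exact h u hu
    simp only [hD', e, hD v ω ω' h]
  have h0' : ∀ v ω, ∑ l, D' v (Function.update ω v l) = 0 := by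
    intro v ω
    simp only [hD', hgood]
    split_ifs
    · exact h0 v ω
    · simp
  have h1' : ∀ ω v l, |D' v (Function.update ω v l)| ≤ b := by
    intro ω v l
    simp only [hD', hgood]
    split_ifs with h
    · exact h l
    · simpa using hb.le
  have hPe : ∀ ω, P ω → ∀ v l, D' v (Function.update ω v l) = D v (Function.update ω v l) := by
    intro ω hω v l
    simp only [hD', hgood]
    rw [if_pos (h1 ω hω v)]
  have hPe' : ∀ ω, P ω → ∀ v, D' v ω = D v ω := by
    intro ω hω v
    simp only [hD']
    rw [if_pos (h1 ω hω v)]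
  have h2' : ∀ ω, P ω → ∑ v, (∑ l, D' v (Function.update ω v l) ^ 2) / Fintype.card α ≤ σ ^ 2 := by
    intro ω hω
    simp only [hPe ω hω]
    exact h2 ω hω
  set P1 : (W → α) → Prop := fun ω => P ω ∧ 2 * Real.sqrt K * σ + 2 * K * b ≤ ∑ v, D v ω with hP1
  set P2 : (W → α) → Prop := fun ω => P ω ∧ 2 * Real.sqrt K * σ + 2 * K * b ≤ -∑ v, D v ω with hP2
  have a1 := fre_one rk hrk D' hDD' h0' P1 b σ K 1 hb hσ hK (Or.inl rfl) h1'
    (fun ω hω => h2' ω hω.1) (fun ω hω => by
      rw [one_mul]
      simp only [hPe' ω hω.1]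
      exact hω.2)
  have a2 := fre_one rk hrk D' hDD' h0' P2 b σ K (-1) hb hσ hK (Or.inr rfl) h1'
    (fun ω hω => h2' ω hω.1) (fun ω hω => by
      rw [neg_one_mul]
      simp only [hPe' ω hω.1]
      exact hω.2)
  have h4 : Finset.univ.filter P ⊆ Finset.univ.filter P1 ∪ Finset.univ.filter P2 := by
    intro ω hω
    have hP := (Finset.mem_filter.1 hω).2
    rw [Finset.mem_union, Finset.mem_filter, Finset.mem_filter]
    rcases le_abs.1 (h3 ω hP) with h | h
    · exact Or.inl ⟨Finset.mem_univ _, hP, h⟩
    · exact Or.inr ⟨Finset.mem_univ _, hP, h⟩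
  have h5 : ((Finset.univ.filter P).card : ℝ) ≤ ((Finset.univ.filter P1).card : ℝ) +
      (Finset.univ.filter P2).card := by
    exact_mod_cast (Finset.card_le_card h4).trans (Finset.card_union_le _ _)
  linarith

end fre2

end Pool.Agent.C4B
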