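import Pool.Agent.Helper53_C4B.Defs

/-!
# The identity (IDN)
-/

set_option autoImplicit false
set_option linter.unusedSectionVars false

open scoped BigOperators Classical

noncomputable section

namespace Pool.Agent.C4B

variable {V : Type} [Fintype V] {M : ℕ}

/-! ### Reversal -/

@[simp] theorem rev_rev (D : Dat V M) : D.rev.rev = D := rfl

theorem rev_Z (D : Dat V M) : D.rev.Z = D.Z := rfl

theorem rev_rho (D : Dat V M) : D.rev.rho = D.rho := rfl

theorem mem_outN (A : Set (V × V)) (x y : V) : y ∈ outN A x ↔ (x, y) ∈ A := by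
  simp [outN]

theorem rev_O (D : Dat V M) (x y : V) : (x, y) ∈ D.rev.O ↔ (y, x) ∈ D.O := Iff.rfl

theorem rev_R (D : Dat V M) (x y : V) : (x, y) ∈ D.rev.R ↔ (y, x) ∈ D.R := Iff.rfl

theorem rev_E (D : Dat V M) (x y : V) : (x, y) ∈ D.rev.E ↔ (y, x) ∈ D.E := Iff.rfl

theorem rev_gam (D : Dat V M) (x y : V) : D.rev.gam x y = D.gam y x := rfl

theorem zt_neg (h : V → ZMod M) (v : V) (l : ZMod M) : zt (-h) v l = zt h v (-l) := by
  simp only [zt, Pi.neg_apply, neg_eq_iff_eq_neg]

theorem rev_Sf (D : Dat V M) (h : V → ZMod M) (v : V) (b : ZMod M) :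
    D.rev.Sf (-h) v (-b) = D.Sb h v b := by
  refine Finset.sum_congr rfl fun i _ => ?_
  rw [zt_neg]
  congr 1
  ring

theorem rev_Sb (D : Dat V M) (h : V → ZMod M) (v : V) (a : ZMod M) :
    D.rev.Sb (-h) v (-a) = D.Sf h v a := by
  refine Finset.sum_congr rfl fun i _ => ?_
  rw [zt_neg]
  congr 1
  ring

/-! ### Sums over the labels -/

theorem zt_sum [NeZero M] (h : V → ZMod M) (v : V) : ∑ l, zt h v l = 0 := by
  simp only [zt, Finset.sum_sub_distrib, Finset.sum_ite_eq, Finset.mem_univ, if_true,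
    Finset.sum_const, Finset.card_univ, ZMod.card, nsmul_eq_mul, mul_one, sub_self]

theorem Sf_sum [NeZero M] (D : Dat V M) (h : V → ZMod M) (v : V) : ∑ a, D.Sf h v a = 0 := by
  simp only [Dat.Sf]
  rw [Finset.sum_comm]
  refine Finset.sum_eq_zero fun i _ => ?_
  exact (Equiv.sum_comp (Equiv.addRight i) (fun a => zt h v a)).trans (zt_sum h v)

theorem eta_sum [NeZero M] (D : Dat V M) (h : V → ZMod M) (x : V) : ∑ a, D.eta h x a = 0 := by
  simp only [Dat.eta]
  rw [← Finset.mul_sum, Finset.sum_comm]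
  rw [Finset.sum_eq_zero, mul_zero]
  intro y _
  rw [← Finset.mul_sum, Sf_sum, mul_zero]

theorem etc_sum [NeZero M] (D : Dat V M) (h : V → ZMod M) (x y : V) :
    ∑ a, D.etc h x y a = 0 := by
  simp only [Dat.etc]
  rw [Finset.sum_sub_distrib, eta_sum, ← Finset.mul_sum, Sf_sum, mul_zero, sub_zero]

theorem g_sum [NeZero M] (D : Dat V M) (h : V → ZMod M) (x : V) : ∑ a, D.g h x a = 0 := by
  simp only [Dat.g]
  rw [← Finset.mul_sum, Finset.sum_comm, Finset.sum_eq_zero, mul_zero]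
  intro y _
  rw [Finset.sum_comm]
  refine Finset.sum_eq_zero fun i _ => ?_
  have e := Equiv.sum_comp ((Equiv.addRight i).trans (Equiv.neg (ZMod M)))
    (fun a => D.rev.etc (-h) y x a)
  refine Eq.trans ?_ (e.trans (etc_sum D.rev (-h) y x))
  rfl

/-- the sum of the multiples of a unit -/
theorem sum_range_mul [Fact M.Prime] (ρ : ZMod M) (hρ : ρ ≠ 0) (F : ZMod M → ℝ) :
    ∑ j ∈ Finset.range M, F (j * ρ) = ∑ a, F a := by
  have : NeZero M := ⟨(Fact.out : M.Prime).ne_zero⟩
  refine Finset.sum_nbij' (fun j : ℕ => (j : ZMod M) * ρ) (fun a => (a * ρ⁻¹).val) ?_ ?_ ?_ ?_ ?_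
  · intro j _; exact Finset.mem_univ _
  · intro a _; exact Finset.mem_range.2 (ZMod.val_lt _)
  · intro j hj
    show ((j : ZMod M) * ρ * ρ⁻¹).val = j
    rw [mul_assoc, mul_inv_cancel₀ hρ, mul_one, ZMod.val_natCast,
      Nat.mod_eq_of_lt (Finset.mem_range.1 hj)]
  · intro a _
    show ((a * ρ⁻¹).val : ZMod M) * ρ = a
    rw [ZMod.natCast_val, ZMod.cast_id, mul_assoc, inv_mul_cancel₀ hρ, mul_one]
  · intro j _; rfl

/-- the recursion of `θ⁺` -/
theorem th_rec [Fact M.Prime] (D : Dat V M) (h : V → ZMod M) (hρ : D.rho ≠ 0) (x : V)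
    (a : ZMod M) : D.th h x a - D.th h x (a - D.rho) = D.I.card * D.g h x a := by
  have : NeZero M := ⟨(Fact.out : M.Prime).ne_zero⟩
  simp only [Dat.th]
  set n := (a * D.rho⁻¹).val with hn
  have ha : (n : ZMod M) * D.rho = a := by
    rw [hn, ZMod.natCast_val, ZMod.cast_id, mul_assoc, inv_mul_cancel₀ hρ, mul_one]
  have e : (a - D.rho) * D.rho⁻¹ = a * D.rho⁻¹ - 1 := by
    rw [sub_mul, mul_inv_cancel₀ hρ]
  rw [e, ← mul_sub]
  congr 1
  rcases Nat.eq_zero_or_pos n with h0 | hpos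
  · have h1 : a * D.rho⁻¹ = 0 := by
      rw [← ZMod.val_eq_zero]
      exact h0
    have h2 : (a * D.rho⁻¹ - 1 : ZMod M).val + 1 = M := by
      have hp := (Fact.out : M.Prime).pos
      have h3 : (-1 : ZMod M) = ((M - 1 : ℕ) : ZMod M) := by
        rw [Nat.cast_sub hp, ZMod.natCast_self, Nat.cast_one, zero_sub]
      rw [h1, zero_sub, h3, ZMod.val_natCast, Nat.mod_eq_of_lt (by omega)]
      omega
    rw [h2, sum_range_mul D.rho hρ, g_sum, sub_zero, h0]
    simp only [zero_add, Finset.range_one, Finset.sum_singleton]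
    rw [← h0, ha]
  · have h2 : (a * D.rho⁻¹ - 1 : ZMod M).val + 1 = n := by
      have h3 : (a * D.rho⁻¹ - 1 : ZMod M) = ((n - 1 : ℕ) : ZMod M) := by
        rw [Nat.cast_sub hpos, hn, ZMod.natCast_val, ZMod.cast_id, Nat.cast_one]
      rw [h3, ZMod.val_natCast, Nat.mod_eq_of_lt]
      · omega
      · exact lt_of_le_of_lt (Nat.sub_le _ _) (ZMod.val_lt _)
    rw [h2, Finset.sum_range_succ, add_sub_cancel_left, ha]

/-! ### The identity -/

/-- evaluation at the actual label -/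
theorem ind_fun (I : Finset (ZMod M)) (h : V → ZMod M) (y : V) (a : ZMod M) (F : ZMod M → ℝ) :
    (if h y - a ∈ I then (M : ℝ) * F (h y - a) else 0) =
      ∑ i ∈ I, (1 + zt h y (a + i)) * F i := by
  have e : ∀ i, (1 + zt h y (a + i)) * F i = if h y - a = i then (M : ℝ) * F i else 0 := by
    intro i
    have : (h y = a + i) ↔ (h y - a = i) := by
      rw [sub_eq_iff_eq_add, add_comm i a]
    simp only [zt, this]
    split_ifs <;> ring
  simp only [e]
  rw [Finset.sum_ite_eq]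

theorem ind_one (D : Dat V M) (h : V → ZMod M) (y : V) (a : ZMod M) :
    (if h y - a ∈ D.I then (M : ℝ) else 0) = D.I.card + D.Sf h y a := by
  have := ind_fun D.I h y a (fun _ => 1)
  simp only [mul_one] at this
  rw [this, Finset.sum_add_distrib]
  simp [Dat.Sf]

/-- the sum over the increments of the corrections `κ⁺` -/
theorem kap_sum (D : Dat V M) (h : V → ZMod M) (h1 : D.i1 ∈ D.I) (h2 : D.i2 ∈ D.I)
    (h12 : D.i1 ≠ D.i2) (x : V) (a : ZMod M → ZMod M) :
    ∑ i ∈ D.I, D.kap h i x (a i) = D.th h x (a D.i2) - D.th h x (a D.i1 - D.rho) := by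
  simp only [Dat.kap]
  rw [← Finset.add_sum_erase _ _ h2]
  have h3 : D.i1 ∈ D.I.erase D.i2 := Finset.mem_erase.2 ⟨h12, h1⟩
  rw [← Finset.add_sum_erase _ _ h3, Finset.sum_eq_zero]
  · rw [if_pos rfl, if_neg h12, if_pos rfl]
    ring
  · intro i hi
    have hi1 := (Finset.mem_erase.1 hi).1
    have hi2 := (Finset.mem_erase.1 (Finset.mem_erase.1 hi).2).1
    rw [if_neg hi2, if_neg hi1]

/-- splitting of a sum over all arcs -/
theorem sum_E (D : Dat V M) (hd : Disjoint D.R D.O) (x : V) (F : V → ℝ) :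
    ∑ y ∈ outN D.E x, D.gam x y * F y = ∑ y ∈ outN D.R x, F y + D.β * ∑ y ∈ outN D.O x, F y := by
  have e : outN D.E x = outN D.R x ∪ outN D.O x := by
    ext y
    simp only [mem_outN, Finset.mem_union, Dat.E, Set.mem_union]
  have hd' : Disjoint (outN D.R x) (outN D.O x) := by
    rw [Finset.disjoint_left]
    intro y hy hy'
    rw [mem_outN] at hy hy'
    exact Set.disjoint_left.1 hd hy hy'
  rw [e, Finset.sum_union hd', Finset.mul_sum]
  congr 1
  · refine Finset.sum_congr rfl fun y hy => ?_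
    rw [mem_outN] at hy
    rw [Dat.gam, if_neg fun h => Set.disjoint_left.1 hd hy h, one_mul]
  · refine Finset.sum_congr rfl fun y hy => ?_
    rw [mem_outN] at hy
    rw [Dat.gam, if_pos hy]

theorem alg_idn (c s e n ν A β f P r : ℝ) (hs : s ≠ 0) :
    (r * c + (c * s * e - β * (c * s * ν))) + (β * (s * c + c * s * ν) +
      (-(c * s) * e + c * β * ν - c * f - c * P) + c * s * n - n * (s * c + c * s * ν) -
      c * s * A) =
    c * s * ((r - f) / s + β + (β / s * ν - n * ν - s⁻¹ * P - A)) := by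
  field_simp
  ring

/-- **IDN** -/
theorem idn [Fact M.Prime] (D : Dat V M) (h : V → ZMod M) (x : V) (hd : Disjoint D.R D.O)
    (hs : 0 < D.s) (h1 : D.i1 ∈ D.I) (h2 : D.i2 ∈ D.I) (h12 : D.i1 ≠ D.i2)
    (hx : (outN D.O x).card = D.s) :
    (M : ℝ) / D.Z * D.T h x =
      ((outN D.R x).card - D.fp x) / D.s + D.β + D.err h x := by
  have hρ : D.rho ≠ 0 := sub_ne_zero.2 h12.symm
  have hs' : (0 : ℝ) < D.s := by exact_mod_cast hs
  have hI : (0 : ℝ) < D.I.card := by exact_mod_cast Finset.card_pos.2 ⟨_, h1⟩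
  have hZ : 0 < D.Z := mul_pos hI hs'
  have hZ' : D.Z ≠ 0 := hZ.ne'
  set a := h x with ha
  -- the four parts of `M * T`
  have hR : (M : ℝ) * ((outN D.R x).filter fun y => h y - h x ∈ D.I).card =
      (outN D.R x).card * D.I.card + ∑ y ∈ outN D.R x, D.Sf h y a := by
    rw [Finset.card_filter, Nat.cast_sum, Finset.mul_sum, ← nsmul_eq_mul, ← Finset.sum_const,
      ← Finset.sum_add_distrib]
    refine Finset.sum_congr rfl fun y _ => ?_
    rw [← ind_one]
    split_ifs <;> simp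
  have hO : (M : ℝ) * ∑ y ∈ outN D.O x, (if h y - h x ∈ D.I then D.w h x y else 0) =
      D.β * (D.s * D.I.card + ∑ y ∈ outN D.O x, D.Sf h y a) +
      (∑ y ∈ outN D.O x, ∑ i ∈ D.I, D.u h x y a i) + D.Z * D.np h x -
      D.np h x * (D.s * D.I.card + ∑ y ∈ outN D.O x, D.Sf h y a) - D.Z * D.A h x := by
    have e1 : ∀ y, (M : ℝ) * (if h y - h x ∈ D.I then D.w h x y else 0) =
        D.β * (D.I.card + D.Sf h y a) + (∑ i ∈ D.I, D.u h x y a i) +
        (∑ i ∈ D.I, zt h y (a + i) * D.u h x y a i) - D.np h x * (D.I.card + D.Sf h y a) -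
        M * (if h y - h x ∈ D.I then D.nm h y else 0) := by
      intro y
      have f1 := ind_fun D.I h y a (fun i => D.u h x y a i)
      have f2 := ind_one D h y a
      have f3 : ∑ i ∈ D.I, (1 + zt h y (a + i)) * D.u h x y a i =
          (∑ i ∈ D.I, D.u h x y a i) + ∑ i ∈ D.I, zt h y (a + i) * D.u h x y a i := by
        rw [← Finset.sum_add_distrib]
        exact Finset.sum_congr rfl fun i _ => by ring
      rw [f3] at f1
      rw [← f2]
      have f4 : (∑ i ∈ D.I, D.u h x y a i) + (∑ i ∈ D.I, zt h y (a + i) * D.u h x y a i) =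
        (if h y - a ∈ D.I then (M : ℝ) * D.u h x y a (h y - a) else 0) := f1.symm
      rw [add_assoc (D.β * _), f4]
      simp only [← ha, Dat.w]
      split_ifs <;> ring
    rw [Finset.mul_sum]
    simp only [e1]
    rw [Finset.sum_sub_distrib, Finset.sum_sub_distrib, Finset.sum_add_distrib,
      Finset.sum_add_distrib, ← Finset.mul_sum, ← Finset.mul_sum, Finset.sum_add_distrib,
      Finset.sum_const, nsmul_eq_mul, hx]
    have g1 : ∑ y ∈ outN D.O x, ∑ i ∈ D.I, zt h y (a + i) * D.u h x y a i =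
        D.Z * D.np h x := by
      rw [Dat.np, ← mul_assoc, mul_inv_cancel₀ hZ', one_mul]
    have g2 : ∑ y ∈ outN D.O x, (M : ℝ) * (if h y - h x ∈ D.I then D.nm h y else 0) =
        D.Z * D.A h x := by
      rw [Dat.A, ← Finset.mul_sum, ← mul_assoc, mul_div_cancel₀ _ hZ']
    rw [g1, g2]
  have hU : ∑ y ∈ outN D.O x, ∑ i ∈ D.I, D.u h x y a i =
      - D.Z * D.eta h x a + D.I.card * D.β * D.nu h x a - D.I.card * D.fp x -
      D.I.card * D.P D.fm x := by
    have e1 : ∀ y, ∑ i ∈ D.I, D.u h x y a i =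
        - D.I.card * D.eta h x a + D.I.card * (D.β / D.Z) * D.Sf h y a -
        (∑ i ∈ D.I, D.rev.etc (-h) y x (-(a + i))) + D.I.card * D.g h x a -
        D.I.card * (D.fp x / D.s) - D.I.card * (D.fm y / D.s) := by
      intro y
      simp only [Dat.u]
      rw [Finset.sum_sub_distrib, Finset.sum_sub_distrib, Finset.sum_add_distrib,
        Finset.sum_add_distrib, Finset.sum_sub_distrib]
      have k1 := kap_sum D h h1 h2 h12 x (fun _ => a)
      have k2 := kap_sum D.rev (-h) h1 h2 h12 y (fun i => -(a + i))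
      have k3 : -(a + D.rev.i1) - D.rev.rho = -(a + D.rev.i2) := by
        simp only [Dat.rho]
        ring
      rw [k3, sub_self] at k2
      have k4 : ∑ i ∈ D.I, D.rev.kap (-h) i y (-(a + i)) = 0 := k2
      rw [k1, k4, th_rec D h hρ]
      simp only [Finset.sum_const, nsmul_eq_mul, Dat.etc]
      ring
    simp only [e1]
    rw [Finset.sum_sub_distrib, Finset.sum_sub_distrib, Finset.sum_add_distrib,
      Finset.sum_sub_distrib, Finset.sum_add_distrib]
    have g1 : ∑ y ∈ outN D.O x, ∑ i ∈ D.I, D.rev.etc (-h) y x (-(a + i)) = D.Z * D.g h x a := by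
      rw [Dat.g, ← mul_assoc, mul_inv_cancel₀ hZ', one_mul]
    have g2 : ∑ y ∈ outN D.O x, (D.I.card : ℝ) * (D.β / D.Z) * D.Sf h y a =
        D.I.card * D.β * D.nu h x a := by
      rw [← Finset.mul_sum, Dat.nu]
      ring
    have g3 : ∑ y ∈ outN D.O x, (D.I.card : ℝ) * (D.fm y / D.s) = D.I.card * D.P D.fm x := by
      rw [← Finset.mul_sum, ← Finset.sum_div, Dat.P]
      ring
    rw [g1, g2, g3]
    simp only [Finset.sum_const, nsmul_eq_mul, hx]
    have hZe : D.Z = D.I.card * D.s := rfl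
    rw [hZe]
    field_simp
    ring
  have hE : D.Z * D.eta h x a = ∑ y ∈ outN D.R x, D.Sf h y a +
      D.β * ∑ y ∈ outN D.O x, D.Sf h y a := by
    rw [Dat.eta, ← mul_assoc, mul_inv_cancel₀ hZ', one_mul, sum_E D hd]
  have hN : ∑ y ∈ outN D.O x, D.Sf h y a = D.Z * D.nu h x a := by
    rw [Dat.nu, ← mul_assoc, mul_inv_cancel₀ hZ', one_mul]
  have hT : (M : ℝ) * D.T h x = D.Z * (((outN D.R x).card - D.fp x) / D.s + D.β + D.err h x) := by
    rw [Dat.T, mul_add, hR, hO, hU]
    have hZe : D.Z = D.I.card * D.s := rfl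
    have e2 : ∑ y ∈ outN D.R x, D.Sf h y a = D.Z * D.eta h x a - D.β * (D.Z * D.nu h x a) := by
      rw [hE, hN]
      ring
    rw [e2, hN, Dat.err, ← ha, hZe]
    exact alg_idn _ _ _ _ _ _ _ _ _ _ hs'.ne'
  rw [div_mul_eq_mul_div, hT, mul_div_cancel_left₀ _ hZ']

end Pool.Agent.C4B
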